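import Pool.Agent.helper50.MA.Chain2
import Pool.Agent.helper50.MA.BlPair
import Pool.Agent.helper15.MA.K1

/-!
# No function of the class DMA has the curve measure `ω ∧ [D]` as its Monge-Ampère measure

Definitions: `Pool/Agent/helper50/MA/Problem.lean` (the problem), `SpecI.lean` and `BlCharts.lean` (the surface `Bl`, the blow-up
of `ℂP²` at a point).  The first part holds on every compact connected complex surface; the second part says that `Bl`, with its
four standard charts, is such a surface, that it carries anticanonical pairs `(ω, D)`, and that for each of them the measure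
`ω ∧ [D]` exists, is not zero, and is not the Monge-Ampère measure of any `φ ∈ DMA(X, ω)`.
-/

set_option autoImplicit false

open MeasureTheory Set
open scoped ContDiff

namespace Pool.Agent.Results.MP_0012ff_an.NoCurvePotential

open DMAProblem

theorem result :
    (∀ (X : Type) [TopologicalSpace X] [ChartedSpace C2 X] [IsManifold (modelWithCornersSelf ℂ C2) ∞ X]
      [CompactSpace X] [T2Space X] [ConnectedSpace X] [MeasurableSpace X] [BorelSpace X]
      (P : AnticanonicalPair X) (μ : Measure X), P.IsArea μ → ¬ ∃ φ : X → EReal, P.PSH φ ∧ P.InDMA φ μ) ∧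
    (IsManifold (modelWithCornersSelf ℂ C2) ∞ Bl ∧ CompactSpace Bl ∧ T2Space Bl ∧ ConnectedSpace Bl ∧
      Nonempty (AnticanonicalPair Bl) ∧
      ∀ [MeasurableSpace Bl] [BorelSpace Bl] (P : AnticanonicalPair Bl), ∃ μ : Measure Bl,
        P.IsArea μ ∧ 0 < μ univ ∧ ¬ ∃ φ : Bl → EReal, P.PSH φ ∧ P.InDMA φ μ) := by
  have hans : DMAProblem.Answer := MAP.cZ6 MAP.K1
  obtain ⟨P0, -⟩ := bl_pair
  refine ⟨hans, bl_manifold, bl_compact, bl_t2, bl_connected, ⟨P0⟩, ?_⟩
  intro _ _ P
  obtain ⟨μ, hμ, hpos⟩ := I6 Bl P
  exact ⟨μ, hμ, hpos, hans Bl P μ hμ⟩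

end Pool.Agent.Results.MP_0012ff_an.NoCurvePotential
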